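import Pool.Agent.Lib.MP_eeed5c_co_K.ZD
import Pool.Agent.Lib.MP_eeed5c_co_T.Stmt

/-!
The upper matching conjecture for all but finitely many pairs `(q, r)`, together with explicit ranges:
all numbers of edges but the last `10^42`, for all regular graphs, and all numbers of edges when the
number of blocks is at least an absolute constant.
-/

set_option autoImplicit false

namespace Pool.Agent.Results.MP_eeed5c_co.AllButFinitelyMany

open Pool.Agent.Lib.MP_eeed5c_coT

/-- There is `n₀` such that every `r`-regular graph `G` on `2 q r` vertices has at most as many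
`k`-matchings as the disjoint union of `q` copies of `K_{r,r}` for every `k`, provided `n₀ ≤ q r`; and
the same holds for all `q`, `r` and `k` with
`k + 10^42 ≤ q r`, or `4 * 10^84 ≤ q`, or
`(6 r - 5) (k - 1) ≤ q r^2`, or `k ≤ q r` and `(2 (q r - k) + 1)^2 ≤ q + 1`, or
`q r - k ≥ 2.3 * 10^10 * (14 + 3 log r + log (7 + 6 log (q r + 1)))^5`, or
`q ≥ 10^36 * (1 + log r)^10`, or
`q ≥ 3 * 10^21 * (14 + 3 log r + log (7 + 6 log (q r + 1)))^10`, or
`q ≥ 2.5 * 10^8 * r^3 * log (q r + 1)`, or `q ≥ 10^10 * r^4`. -/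
theorem result :
    ∃ n₀ : ℕ, ∀ (q r : ℕ) (V : Type) [Fintype V] (G : SimpleGraph V),
      Fintype.card V = 2 * q * r →
      (∀ v : V, (G.neighborSet v).ncard = r) →
      ∀ k : ℕ,
        (n₀ ≤ q * r ∨
          k + 10 ^ 42 ≤ q * r ∨
          4 * 10 ^ 84 ≤ q ∨
          (6 * r - 5) * (k - 1) ≤ q * r ^ 2 ∨
          (k ≤ q * r ∧ (2 * (q * r - k) + 1) ^ 2 ≤ q + 1) ∨
          23000000000 *
            (14 + 3 * Real.log r + Real.log (7 + 6 * Real.log ((q : ℝ) * r + 1))) ^ 5 ≤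
              (q : ℝ) * r - k ∨
          10 ^ 36 * (1 + Real.log r) ^ 10 ≤ (q : ℝ) ∨
          3 * 10 ^ 21 *
            (14 + 3 * Real.log r + Real.log (7 + 6 * Real.log ((q : ℝ) * r + 1))) ^ 10 ≤ (q : ℝ) ∨
          250000000 * (r : ℝ) ^ 3 * Real.log ((q : ℝ) * r + 1) ≤ q ∨
          10 ^ 10 * r ^ 4 ≤ q) →
        Set.ncard {s : Finset (Sym2 V) |
            (↑s : Set (Sym2 V)) ⊆ G.edgeSet ∧ s.card = k ∧
            (↑s : Set (Sym2 V)).Pairwise (fun e f => ∀ v : V, v ∈ e → v ∉ f)}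
          ≤
        Set.ncard {s : Finset (Sym2 (Fin q × Fin 2 × Fin r)) |
            (↑s : Set (Sym2 (Fin q × Fin 2 × Fin r))) ⊆
              (SimpleGraph.fromRel
                (fun a b : Fin q × Fin 2 × Fin r => a.1 = b.1 ∧ a.2.1 ≠ b.2.1)).edgeSet ∧
            s.card = k ∧
            (↑s : Set (Sym2 (Fin q × Fin 2 × Fin r))).Pairwise
              (fun e f => ∀ v : Fin q × Fin 2 × Fin r, v ∈ e → v ∉ f)} := by
  obtain ⟨n₀, hn₀⟩ := Pool.Agent.Lib.MP_eeed5c_coK.all_but_finite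
  refine ⟨n₀, ?_⟩
  intro q r V _ G hV hreg k hk
  have hV' : Fintype.card V = 2 * (q * r) := by rw [hV]; ring
  have hreg' := Reg_of hreg
  have main : (Pool.Agent.Lib.MP_eeed5c_co.mats G k).card ≤
      (Pool.Agent.Lib.MP_eeed5c_co.mats (Pool.Agent.Lib.MP_eeed5c_co.KK q r) k).card := by
    rcases hk with h | h | h | h | ⟨h, h'⟩ | h | h | h | h | h
    · exact hn₀ q r k V G hV' hreg' h
    · exact Pool.Agent.Lib.MP_eeed5c_coZ.abs_mid Pool.Agent.Lib.MP_eeed5c_coZ.blocks_holds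
        hV' hreg' (by omega)
    · exact Pool.Agent.Lib.MP_eeed5c_coZ.abs_q Pool.Agent.Lib.MP_eeed5c_coZ.blocks_holds
        hV' hreg' h
    · exact Pool.Agent.Lib.MP_eeed5c_co.small_matchings hV' hreg' h
    · exact Pool.Agent.Lib.MP_eeed5c_coU.main_top hV' hreg' h h'
    · exact Pool.Agent.Lib.MP_eeed5c_coM.main_mid hV' hreg' h
    · refine Pool.Agent.Lib.MP_eeed5c_coU.main_q hV' hreg' ?_
      linarith
    · refine Pool.Agent.Lib.MP_eeed5c_coU.main_log hV' hreg' ?_
      unfold Pool.Agent.Lib.MP_eeed5c_coM.Lq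
      linarith
    · exact main_large h hV' hreg'
    · refine main_poly ?_ hV' hreg'
      linarith
  rw [Pool.Agent.Lib.MP_eeed5c_co.ncard_eq G k]
  have h := Pool.Agent.Lib.MP_eeed5c_co.ncard_eq (Pool.Agent.Lib.MP_eeed5c_co.KK q r) k
  unfold Pool.Agent.Lib.MP_eeed5c_co.KK at h
  rw [h]
  exact main

end Pool.Agent.Results.MP_eeed5c_co.AllButFinitelyMany
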