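import Pool.Agent.Lib.MP_eeed5c_co_C.Final
import Pool.Agent.Lib.MP_eeed5c_co_T.Stmt2

/-!
The upper matching conjecture for cubic graphs: every simple 3-regular graph on `6 q` vertices,
`q ≥ 5`, has at most as many matchings with `k` edges as the disjoint union of `q` copies of
`K_{3,3}`, for every `k`.
-/

set_option autoImplicit false

namespace Pool.Agent.Results.MP_eeed5c_co.Cubic

open Pool.Agent.Lib.MP_eeed5c_coT Pool.Agent.Lib.MP_eeed5c_coC

/-- For `q ≥ 5`, every 3-regular graph on `2 q 3` vertices satisfies the conclusion of the upper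
matching conjecture for all `k`. -/
theorem result :
    ∀ (q : ℕ) (V : Type) [Fintype V] (G : SimpleGraph V), 5 ≤ q →
      Fintype.card V = 2 * q * 3 → (∀ v : V, (G.neighborSet v).ncard = 3) → UMC q 3 G :=
  fun _ _ _ G hq hV hreg => UMC_of fun k => cubic_all G hq hV hreg k

end Pool.Agent.Results.MP_eeed5c_co.Cubic
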