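import Pool.Agent.Lib.MP_eeed5c_co_T.Stmt2

/-!
The upper matching conjecture for regular graphs with few 4-cycles.
-/

set_option autoImplicit false

namespace Pool.Agent.Results.MP_eeed5c_co.FewFourCycles

open Pool.Agent.Lib.MP_eeed5c_coT

/-- The conclusion of the upper matching conjecture holds for all `k` and every `r`-regular graph
`G` on `2 q r` vertices which satisfies one of the following conditions: the number `c4 G` of
oriented and rooted 4-cycles (`8` times the number of 4-cycles) is at most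
`2 q r^2 (r-1)^2 - 104000 r^4 log (q r + 1)` (the first term is its value for `q K_{r,r}`); or,
for some `s ≥ 1`, any two vertices have at most `s` common neighbours and `500000 s log r ≤ r`
(no condition on `q`) or `52000 r^2 log (q r + 1) ≤ (r-1)(r-s) q`; or no union of connected
components of `G` has exactly `2 r` vertices, and `52000 r^2 log (q r + 1) ≤ q`. -/
theorem result :
    ∀ (q r : ℕ) (V : Type) [Fintype V] (G : SimpleGraph V),
      Fintype.card V = 2 * q * r → (∀ v : V, (G.neighborSet v).ncard = r) →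
      ((c4 G : ℝ) ≤ 2 * q * (r : ℝ) ^ 2 * ((r : ℝ) - 1) ^ 2 -
          104000 * (r : ℝ) ^ 4 * Real.log ((q : ℝ) * r + 1) ∨
        (∃ s : ℕ, 1 ≤ s ∧
          (∀ v u : V, v ≠ u → (G.neighborSet v ∩ G.neighborSet u).ncard ≤ s) ∧
          (500000 * (s : ℝ) * Real.log r ≤ r ∨
            52000 * (r : ℝ) ^ 2 * Real.log ((q : ℝ) * r + 1) ≤ ((r : ℝ) - 1) * (r - s) * q)) ∨
        ((∀ S : Set V, (∀ a b, G.Adj a b → (a ∈ S ↔ b ∈ S)) → S.ncard ≠ 2 * r) ∧
          52000 * (r : ℝ) ^ 2 * Real.log ((q : ℝ) * r + 1) ≤ q)) →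
      UMC q r G := by
  intro q r V _ G hV hreg h
  have hV' : Fintype.card V = 2 * (q * r) := by rw [hV]; ring
  rcases h with hc | ⟨s, hs, hco, hrs | hq⟩ | ⟨hno, hq⟩
  · exact UMC_of fun k => main_c4 (by linarith) hV' (Reg_of hreg)
  · exact UMC_of fun k => main_codeg_large hs hrs (co_of hco) hV' (Reg_of hreg)
  · exact UMC_of fun k => main_codeg hs (co_of hco) hq hV' (Reg_of hreg)
  · exact UMC_of fun k => main_noblock hno hq hV' (Reg_of hreg)

end Pool.Agent.Results.MP_eeed5c_co.FewFourCycles
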