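import Pool.Agent.Lib.MP_eeed5c_co.OneBlock

/-!
The upper matching conjecture for one block: `r`-regular graphs on `2 r` vertices.
-/

namespace Pool.Agent.Results.MP_eeed5c_co.OneBlock

/-- For all `r`, all `r`-regular graphs `G` on `2 r` vertices and all `k ≤ r`, the graph `G` has at
most as many `k`-matchings as `K_{r,r}`. This is the upper matching conjecture for `q = 1`. -/
theorem result :
    ∀ (r : ℕ) (V : Type) [Fintype V] (G : SimpleGraph V),
      Fintype.card V = 2 * 1 * r →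
      (∀ v : V, (G.neighborSet v).ncard = r) →
      ∀ k : ℕ, k ≤ r →
        Set.ncard {s : Finset (Sym2 V) |
            (↑s : Set (Sym2 V)) ⊆ G.edgeSet ∧ s.card = k ∧
            (↑s : Set (Sym2 V)).Pairwise (fun e f => ∀ v : V, v ∈ e → v ∉ f)}
          ≤
        Set.ncard {s : Finset (Sym2 (Fin 1 × Fin 2 × Fin r)) |
            (↑s : Set (Sym2 (Fin 1 × Fin 2 × Fin r))) ⊆
              (SimpleGraph.fromRel
                (fun a b : Fin 1 × Fin 2 × Fin r => a.1 = b.1 ∧ a.2.1 ≠ b.2.1)).edgeSet ∧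
            s.card = k ∧
            (↑s : Set (Sym2 (Fin 1 × Fin 2 × Fin r))).Pairwise
              (fun e f => ∀ v : Fin 1 × Fin 2 × Fin r, v ∈ e → v ∉ f)} := by
  intro r V _ G hV hreg k hk
  rw [Pool.Agent.Lib.MP_eeed5c_co.ncard_eq G k]
  have h := Pool.Agent.Lib.MP_eeed5c_co.ncard_eq (Pool.Agent.Lib.MP_eeed5c_co.KK 1 r) k
  unfold Pool.Agent.Lib.MP_eeed5c_co.KK at h
  rw [h]
  exact Pool.Agent.Lib.MP_eeed5c_co.one_block (by rw [hV])
    (Pool.Agent.Lib.MP_eeed5c_co.reg_of_ncard hreg) k hk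

end Pool.Agent.Results.MP_eeed5c_co.OneBlock
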